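import Mathlib

/-!
# MP_c7af3c_ag, project LINES: comparison of volumes on a quotient (COMPARE)
-/

set_option autoImplicit false
set_option linter.unusedSectionVars false

namespace Pool.Agent.Lines.H54

open Matrix

variable {L : Type*} [Field L] {Γ : Type*} [LinearOrderedCommGroupWithZero Γ]
  {ι : Type*} [Fintype ι] [DecidableEq ι] {s t : ℕ}

/-- expansion of a minor of a product -/
theorem det_expand (N : Matrix ι ι L) (κ' : Matrix ι (Fin s) L) (S0 : Fin s → ι) :
    (((N.transpose * κ').submatrix S0 id).det) =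
      ∑ f : Fin s → ι, (∏ j, N (f j) (S0 j)) * (κ'.submatrix f id).det := by
  have h1 : (N.transpose * κ').submatrix S0 id =
      fun j => ∑ a, N a (S0 j) • κ' a := by
    funext j l
    simp only [Matrix.submatrix_apply, id_eq, Matrix.mul_apply, Matrix.transpose_apply,
      Finset.sum_apply, Pi.smul_apply, smul_eq_mul]
  have h2 : ((N.transpose * κ').submatrix S0 id).det =
      Matrix.detRowAlternating ((N.transpose * κ').submatrix S0 id) := rfl
  rw [h2, h1]
  have h3 := (Matrix.detRowAlternating (n := Fin s) (R := L)).toMultilinearMap.map_sum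
    (fun (j : Fin s) (a : ι) => N a (S0 j) • κ' a)
  have h4 : (Matrix.detRowAlternating (n := Fin s) (R := L)) (fun j => ∑ a, N a (S0 j) • κ' a) =
      (Matrix.detRowAlternating (n := Fin s) (R := L)).toMultilinearMap
        (fun j => ∑ a, N a (S0 j) • κ' a) := rfl
  rw [h4, h3]
  refine Finset.sum_congr rfl fun f _ => ?_
  rw [MultilinearMap.map_smul_univ]
  rfl

/-- comparison of minors -/
theorem minor_le (v : Valuation L Γ) (N : Matrix ι ι L) (κ' : Matrix ι (Fin s) L)
    (S0 : Fin s → ι) (R : Γ) (hN : ∀ a b, v (N a b) ≤ R)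
    (h0 : ((N.transpose * κ').submatrix S0 id).det ≠ 0) :
    ∃ S : Fin s → ι, Function.Injective S ∧
      v ((N.transpose * κ').submatrix S0 id).det ≤ R ^ s * v (κ'.submatrix S id).det := by
  classical
  have hv0 : v ((N.transpose * κ').submatrix S0 id).det ≠ 0 := by rwa [Ne, map_eq_zero]
  obtain ⟨f, hf⟩ : ∃ f : Fin s → ι, v ((N.transpose * κ').submatrix S0 id).det ≤
      v ((∏ j, N (f j) (S0 j)) * (κ'.submatrix f id).det) := by
    by_contra hc
    push Not at hc
    have h1 := v.map_sum_lt (s := Finset.univ)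
      (f := fun f : Fin s → ι => (∏ j, N (f j) (S0 j)) * (κ'.submatrix f id).det) hv0
      (fun f _ => hc f)
    rw [← det_expand] at h1
    exact lt_irrefl _ h1
  refine ⟨f, ?_, ?_⟩
  · intro i j hij
    by_contra hne
    have h1 : (κ'.submatrix f id).det = 0 := by
      refine Matrix.det_zero_of_row_eq hne ?_
      funext l
      simp only [Matrix.submatrix_apply, id_eq]
      rw [hij]
    rw [h1, mul_zero, map_zero] at hf
    exact hv0 (le_antisymm hf zero_le)
  · refine hf.trans ?_
    rw [map_mul, map_prod]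
    refine mul_le_mul' ?_ le_rfl
    calc ∏ j, v (N (f j) (S0 j)) ≤ ∏ _j : Fin s, R := Finset.prod_le_prod' fun j _ => hN _ _
      _ = R ^ s := by rw [Finset.prod_const, Finset.card_univ, Fintype.card_fin]

/-- the volume of `h` with respect to the vectors `k` -/
noncomputable def Vol (e0 : Fin t ⊕ Fin s ≃ ι) (k : Fin s → ι → L) (h : Fin t → ι → L) : L :=
  (Matrix.of fun (r r' : Fin t ⊕ Fin s) => Sum.elim h k r (e0 r')).det

/-- volume of rows of a matrix -/
theorem v_Vol (v : Valuation L Γ) (e0 e : Fin t ⊕ Fin s ≃ ι) (N : Matrix ι ι L)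
    (κ' : Matrix ι (Fin s) L) (k : Fin s → ι → L)
    (hk : ∀ j b, k j b = (N.transpose * κ') b j) :
    v (Vol e0 k (fun i => N (e (Sum.inl i)))) =
      v N.det * v (κ'.submatrix (fun j => e (Sum.inr j)) id).det := by
  classical
  have h1 : (Matrix.of fun (r r' : Fin t ⊕ Fin s) =>
      Sum.elim (fun i => N (e (Sum.inl i))) k r (e0 r')) =
      (Matrix.fromBlocks (1 : Matrix (Fin t) (Fin t) L) 0
        (κ'.submatrix (fun j => e (Sum.inl j)) id).transpose
        (κ'.submatrix (fun j => e (Sum.inr j)) id).transpose) * (N.submatrix e e0) := by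
    ext r r'
    rw [Matrix.mul_apply, Fintype.sum_sum_type]
    rcases r with i | j
    · simp [Matrix.one_apply]
    · simp only [Matrix.of_apply, Sum.elim_inr, Matrix.fromBlocks_apply₂₁,
        Matrix.fromBlocks_apply₂₂, Matrix.transpose_apply, Matrix.submatrix_apply, id_eq]
      rw [hk, Matrix.mul_apply, ← e.sum_comp, Fintype.sum_sum_type]
      simp only [Matrix.transpose_apply]
      congr 1
      · exact Finset.sum_congr rfl fun i _ => mul_comm _ _
      · exact Finset.sum_congr rfl fun i _ => mul_comm _ _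
  unfold Vol
  rw [h1, Matrix.det_mul, Matrix.det_fromBlocks_zero₁₂, Matrix.det_one, one_mul,
    Matrix.det_transpose, map_mul]
  have h2 : N.submatrix e e0 = (N.submatrix e e).submatrix id (e0.trans e.symm) := by
    ext r r'
    simp
  rw [h2, Matrix.det_permute', Matrix.det_submatrix_equiv_self, map_mul]
  have h3 : v (((Equiv.Perm.sign (e0.trans e.symm) : ℤˣ) : ℤ) : L) = 1 := by
    rcases Int.units_eq_one_or (Equiv.Perm.sign (e0.trans e.symm)) with h | h
    · rw [h]; simp
    · rw [h]; simp [Valuation.map_neg]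
  rw [h3, one_mul, mul_comm]

/-- an injective family of indices is part of a bijection -/
theorem exists_equiv (hcard : Fintype.card ι = t + s) (S : Fin s → ι)
    (hS : Function.Injective S) : ∃ e : Fin t ⊕ Fin s ≃ ι, ∀ j, e (Sum.inr j) = S j := by
  classical
  have h1 : Fintype.card ((Set.range S)ᶜ : Set ι) = t := by
    rw [Fintype.card_compl_set, hcard, Set.card_range_of_injective hS, Fintype.card_fin]
    omega
  let e1 : Fin t ≃ ((Set.range S)ᶜ : Set ι) := (Fintype.equivFinOfCardEq h1).symm
  let e2 : Fin s ≃ Set.range S := Equiv.ofInjective S hS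
  refine ⟨(Equiv.sumComm _ _).trans ((Equiv.sumCongr e2 e1).trans
    (Equiv.Set.sumCompl (Set.range S))), fun j => ?_⟩
  simp [e2]

/-- COMPARE: a system of rows of `N` with large volume. -/
theorem compare (v : Valuation L Γ) (e0 : Fin t ⊕ Fin s ≃ ι) (k : Fin s → ι → L)
    (h0 : (Matrix.of fun j j' => k j (e0 (Sum.inr j'))).det ≠ 0) (N : Matrix ι ι L)
    (hN0 : N.det ≠ 0) (R : Γ) (hN : ∀ a b, v (N a b) ≤ R) :
    ∃ e : Fin t ⊕ Fin s ≃ ι,
      v N.det * v (Matrix.of fun j j' => k j (e0 (Sum.inr j'))).det ≤
        R ^ s * v (Vol e0 k (fun i => N (e (Sum.inl i)))) := by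
  classical
  -- `k` in the basis of the rows of `N`
  set κ : Matrix ι (Fin s) L := Matrix.of fun b j => k j b with hκ
  have hu : IsUnit N.transpose := by
    rw [Matrix.isUnit_iff_isUnit_det, Matrix.det_transpose]
    exact isUnit_iff_ne_zero.2 hN0
  set κ' : Matrix ι (Fin s) L := N.transpose⁻¹ * κ with hκ'
  have h1 : N.transpose * κ' = κ := by
    rw [hκ', ← Matrix.mul_assoc, Matrix.mul_nonsing_inv _
      ((Matrix.isUnit_iff_isUnit_det _).1 hu), Matrix.one_mul]
  have h2 : (Matrix.of fun j j' => k j (e0 (Sum.inr j'))).det =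
      ((N.transpose * κ').submatrix (fun j => e0 (Sum.inr j)) id).det := by
    rw [h1, ← Matrix.det_transpose]
    rfl
  rw [h2] at h0 ⊢
  obtain ⟨S, hS, hle⟩ := minor_le v N κ' (fun j => e0 (Sum.inr j)) R hN h0
  have hcard : Fintype.card ι = t + s := by
    rw [← Fintype.card_congr e0, Fintype.card_sum, Fintype.card_fin, Fintype.card_fin]
  obtain ⟨e, he⟩ := exists_equiv hcard S hS
  refine ⟨e, ?_⟩
  rw [v_Vol v e0 e N κ' k (fun j b => by rw [h1]; rfl)]
  have h3 : (κ'.submatrix (fun j => e (Sum.inr j)) id) = κ'.submatrix S id := by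
    congr 1
    funext j
    exact he j
  rw [h3]
  calc v N.det * v ((N.transpose * κ').submatrix (fun j => e0 (Sum.inr j)) id).det ≤
      v N.det * (R ^ s * v (κ'.submatrix S id).det) := mul_le_mul' le_rfl hle
    _ = R ^ s * (v N.det * v (κ'.submatrix S id).det) := by
        rw [← mul_assoc, ← mul_assoc, mul_comm (v N.det) (R ^ s)]

/-- independent vectors have a nonzero minor -/
theorem exists_minor (k : Fin s → ι → L) (hk : LinearIndependent L k)
    (hcard : Fintype.card ι = t + s) : ∃ e0 : Fin t ⊕ Fin s ≃ ι,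
      (Matrix.of fun j j' => k j (e0 (Sum.inr j'))).det ≠ 0 := by
  classical
  -- a left inverse
  have hinj : LinearMap.ker (Fintype.linearCombination L k) = ⊥ :=
    LinearMap.ker_eq_bot.2 (linearIndependent_iff_injective_fintypeLinearCombination.1 hk)
  obtain ⟨g, hg⟩ := LinearMap.exists_leftInverse_of_injective _ hinj
  -- `A B = 1`
  have h1 : ∀ i j, ∑ b, k i b * g (Pi.single b 1) j = if i = j then 1 else 0 := by
    intro i j
    have h2 : g (k i) = Pi.single i 1 := by
      have h3 := LinearMap.congr_fun hg (Pi.single i 1)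
      rw [LinearMap.comp_apply, LinearMap.id_apply] at h3
      rw [← h3]
      congr 1
      rw [Fintype.linearCombination_apply_single, one_smul]
    have h4 : k i = ∑ b, k i b • (Pi.single b (1 : L) : ι → L) := by
      funext b
      simp [Finset.sum_apply, Pi.single_apply]
    have h5 : g (k i) = ∑ b, k i b • g (Pi.single b (1 : L)) := by
      conv_lhs => rw [h4]
      rw [map_sum]
      simp only [map_smul]
    have h6 := congrFun h5 j
    rw [h2] at h6
    simp only [Finset.sum_apply, Pi.smul_apply, smul_eq_mul, Pi.single_apply] at h6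
    rw [← h6]
    by_cases hij : i = j
    · rw [if_pos hij, if_pos hij.symm]
    · rw [if_neg hij, if_neg (fun h => hij h.symm)]
  -- expansion of `det 1`
  have h7 : (1 : L) = ∑ f : Fin s → ι, (∏ j, g (Pi.single (f j) 1) j) *
      (Matrix.of fun j l => k l (f j)).det := by
    have h8 : (1 : Matrix (Fin s) (Fin s) L) =
        fun j => ∑ b, g (Pi.single b 1) j • (fun l => k l b) := by
      funext j l
      simp only [Finset.sum_apply, Pi.smul_apply, smul_eq_mul]
      rw [Matrix.one_apply]
      have := h1 l j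
      rw [Finset.sum_congr rfl fun b _ => mul_comm (k l b) (g (Pi.single b 1) j)] at this
      rw [this]
      by_cases hjl : j = l
      · rw [if_pos hjl, if_pos hjl.symm]
      · rw [if_neg hjl, if_neg (fun h => hjl h.symm)]
    have h9 := congrArg (Matrix.detRowAlternating (n := Fin s) (R := L)).toMultilinearMap h8
    have h10 : (Matrix.detRowAlternating (n := Fin s) (R := L)).toMultilinearMap
        (1 : Matrix (Fin s) (Fin s) L) = 1 := Matrix.det_one
    rw [h10, MultilinearMap.map_sum] at h9
    refine h9.trans (Finset.sum_congr rfl fun f _ => ?_)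
    rw [MultilinearMap.map_smul_univ]
    rfl
  obtain ⟨f, -, hf⟩ := Finset.exists_ne_zero_of_sum_ne_zero
    (show ∑ f : Fin s → ι, (∏ j, g (Pi.single (f j) 1) j) *
      (Matrix.of fun j l => k l (f j)).det ≠ 0 by rw [← h7]; exact one_ne_zero)
  have hf2 := right_ne_zero_of_mul hf
  have hfinj : Function.Injective f := by
    intro i j hij
    by_contra hne
    refine hf2 (Matrix.det_zero_of_row_eq hne ?_)
    funext l
    simp only [Matrix.of_apply]
    rw [hij]
  obtain ⟨e, he⟩ := exists_equiv hcard f hfinj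
  refine ⟨e, ?_⟩
  rw [← Matrix.det_transpose]
  have h11 : (Matrix.of fun j j' => k j (e (Sum.inr j'))).transpose =
      Matrix.of fun j l => k l (f j) := by
    ext i j
    simp only [Matrix.transpose_apply, Matrix.of_apply]
    rw [he]
  rw [h11]
  exact hf2

end Pool.Agent.Lines.H54
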