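import Pool.Agent.Lib.MP_c7af3c_ag.LINES.H54.SymDet
import Pool.Agent.Lib.MP_c7af3c_ag.LINES.H54.Compare
import Pool.Agent.Lib.MP_c7af3c_ag.SHARP.H54.Root

/-!
# MP_c7af3c_ag, project LINES: the local lower bound for the volume on the forms of a line
-/

set_option autoImplicit false
set_option linter.unusedSectionVars false

namespace Pool.Agent.Lines.H54

open MvPolynomial WithZero Pool.Agent.Gen Pool.Agent.Sharp Pool.Agent.Sharp.H54

/-- the index set of the coefficients of the tuples of forms of degrees `d m` in two variables -/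
abbrev Hix {c : ℕ} (d : Fin c → ℕ) : Type := Σ m : Fin c, Fin (d m + 1)

variable {L : Type} [Field L] {n c : ℕ} {d : Fin c → ℕ}

/-- the coefficients of the restrictions of the monomials in `X_i, X_j` -/
noncomputable def symB (d : Fin c → ℕ) (x y : Fin (n + 1) → L) (i j : Fin (n + 1)) :
    Matrix (Hix d) (Hix d) L :=
  Matrix.blockDiagonal' fun m => symM (x i) (y i) (x j) (y j) (d m)

/-- the monomial with index `a` -/
noncomputable def mono (i j : Fin (n + 1)) (a : Hix d) : MvPolynomial (Fin (n + 1)) L :=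
  X i ^ (d a.1 - a.2) * X j ^ (a.2 : ℕ)

theorem mono_hom (i j : Fin (n + 1)) (a : Hix d) :
    (mono (L := L) i j a).IsHomogeneous (d a.1) := by
  have h1 := ((isHomogeneous_X L i).pow (d a.1 - a.2)).mul ((isHomogeneous_X L j).pow (a.2 : ℕ))
  have h2 : 1 * (d a.1 - a.2) + 1 * (a.2 : ℕ) = d a.1 := by
    have := a.2.2
    omega
  rwa [h2] at h1

theorem lineP_mono (x y : Fin (n + 1) → L) (i j : Fin (n + 1)) (a : Hix d) :
    lineP (mono i j a) x y = symP (x i) (y i) (x j) (y j) (d a.1) a.2 := by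
  unfold mono symP
  rw [lineP_mul, lineP_pow, lineP_pow, lineP_X, lineP_X]

theorem symB_apply (x y : Fin (n + 1) → L) (i j : Fin (n + 1)) (a b : Hix d) :
    symB d x y i j a b = if a.1 = b.1 then (lineP (mono i j a) x y).coeff b.2 else 0 := by
  rw [lineP_mono]
  unfold symB
  rw [Matrix.blockDiagonal'_apply]
  split_ifs with h
  · obtain ⟨m, a⟩ := a
    obtain ⟨m', b⟩ := b
    simp only at h
    subst h
    rfl
  · rfl

theorem det_blockDiag {R : Type*} [CommRing R] (M : ∀ m : Fin c,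
    Matrix (Fin (d m + 1)) (Fin (d m + 1)) R) :
    (Matrix.blockDiagonal' M).det = ∏ m, (M m).det := by
  rw [(Matrix.blockTriangular_blockDiagonal' M).det_fintype]
  refine Finset.prod_congr rfl fun m _ => ?_
  have h : (Matrix.blockDiagonal' M).toSquareBlock Sigma.fst m =
      (M m).submatrix (Equiv.sigmaSubtype m) (Equiv.sigmaSubtype m) := by
    ext ⟨⟨m1, a⟩, ha⟩ ⟨⟨m2, b⟩, hb⟩
    simp only at ha hb
    subst ha
    obtain rfl := hb
    simp [Matrix.toSquareBlock, Matrix.toSquareBlockProp, Equiv.sigmaSubtype]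
  rw [h, Matrix.det_submatrix_equiv_self]

theorem det_symB (x y : Fin (n + 1) → L) (i j : Fin (n + 1)) :
    (symB d x y i j).det = plu x y i j ^ (∑ m, d m * (d m + 1) / 2) := by
  unfold symB
  rw [det_blockDiag, ← Finset.prod_pow_eq_pow_sum]
  refine Finset.prod_congr rfl fun m _ => ?_
  rw [det_symM]
  unfold plu
  ring

/-- bound of the coefficients -/
theorem symB_le (v : Valuation L ℤᵐ⁰) (x y : Fin (n + 1) → L) (i j : Fin (n + 1)) {R : ℤᵐ⁰}
    (hR : 1 ≤ R) (hx : ∀ p, v (x p) ≤ R) (hy : ∀ p, v (y p) ≤ R) {dm : ℕ}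
    (hd : ∀ m, d m ≤ dm) (a b : Hix d) : v (symB d x y i j a b) ≤ R ^ dm := by
  rw [symB_apply]
  split_ifs with h
  · rw [lineP_mono]
    have h1 : ∀ p, CB v (Polynomial.C (x p) + Polynomial.X * Polynomial.C (y p)) R := by
      intro p k
      rw [Polynomial.coeff_add, Polynomial.coeff_C, Polynomial.coeff_mul_C, Polynomial.coeff_X]
      refine v.map_add_le ?_ ?_
      · split_ifs
        · exact hx p
        · rw [map_zero]; exact zero_le
      · split_ifs
        · rw [one_mul]; exact hy p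
        · rw [zero_mul, map_zero]; exact zero_le
    have h2 := ((h1 i).pow (d a.1 - a.2)).mul ((h1 j).pow (a.2 : ℕ)) b.2
    unfold symP
    refine h2.trans ?_
    rw [← pow_add]
    refine pow_le_pow_right₀ hR ?_
    have h3 := a.2.2
    have h4 := hd a.1
    omega
  · rw [map_zero]; exact zero_le

/-- LOWER: at one place. -/
theorem lower_local (v : Valuation L ℤᵐ⁰) (x y : Fin (n + 1) → L) (i j : Fin (n + 1))
    (hij : plu x y i j ≠ 0) {R : ℤᵐ⁰} (hR : 1 ≤ R) (hx : ∀ p, v (x p) ≤ R)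
    (hy : ∀ p, v (y p) ≤ R) {dm : ℕ} (hd : ∀ m, d m ≤ dm) {s t : ℕ}
    (e0 : Fin t ⊕ Fin s ≃ Hix d) (k : Fin s → Hix d → L)
    (h0 : (Matrix.of fun j j' => k j (e0 (Sum.inr j'))).det ≠ 0) :
    ∃ e : Fin t ⊕ Fin s ≃ Hix d,
      v (plu x y i j) ^ (∑ m, d m * (d m + 1) / 2) *
        v (Matrix.of fun j j' => k j (e0 (Sum.inr j'))).det ≤
      (R ^ dm) ^ s * v (Vol e0 k (fun r => symB d x y i j (e (Sum.inl r)))) := by
  have hN0 : (symB d x y i j).det ≠ 0 := by
    rw [det_symB]
    exact pow_ne_zero _ hij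
  obtain ⟨e, he⟩ := compare v e0 k h0 (symB d x y i j) hN0 (R ^ dm)
    (fun a b => symB_le v x y i j hR hx hy hd a b)
  rw [det_symB, map_pow] at he
  exact ⟨e, he⟩

end Pool.Agent.Lines.H54
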