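import Pool.Agent.Lib.MP_c7af3c_ag.LINES.H54.SymDet

/-!
# MP_c7af3c_ag, project LINES: symmetric powers of a 2 x 2 matrix (SYMDET, form of helper26)
-/

set_option autoImplicit false

namespace Pool.Agent.Lines

open Polynomial

variable {L : Type*} [Field L]

/-- the matrix of the `d`-th symmetric power -/
noncomputable def symM (d : ℕ) (α β γ δ : L) : Matrix (Fin (d + 1)) (Fin (d + 1)) L :=
  Matrix.of fun a' a => (((C α * X + C β) ^ (a : ℕ) * (C γ * X + C δ) ^ (d - a)).coeff a')

theorem symM_eq (d : ℕ) (α β γ δ : L) :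
    symM d α β γ δ = (H54.symM δ γ β α d).transpose := by
  ext a' a
  unfold symM H54.symM H54.symP
  simp only [Matrix.of_apply, Matrix.transpose_apply]
  congr 1
  rw [mul_comm, add_comm (C γ * X) (C δ), add_comm (C α * X) (C β), mul_comm (C γ) X,
    mul_comm (C α) X]

/-- the determinant -/
theorem symM_det (d : ℕ) (α β γ δ : L) :
    (symM d α β γ δ).det = (α * δ - β * γ) ^ (d * (d + 1) / 2) := by
  rw [symM_eq, Matrix.det_transpose, H54.det_symM]
  congr 1
  ring

/-- homogenization of a product with a linear form -/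
theorem hom_mul {R : Type*} [CommRing R] [Algebra L R] (A B : R) (α β : L) (P : L[X]) {d : ℕ}
    (hP : P.natDegree ≤ d) :
    ∑ k ∈ Finset.range (d + 1 + 1), ((C α * X + C β) * P).coeff k • (A ^ k * B ^ (d + 1 - k)) =
      (α • A + β • B) * ∑ k ∈ Finset.range (d + 1), P.coeff k • (A ^ k * B ^ (d - k)) := by
  have h1 : ∀ k, ((C α * X + C β) * P).coeff k =
      α * (X * P).coeff k + β * P.coeff k := by
    intro k
    rw [add_mul, coeff_add, mul_assoc, coeff_C_mul, coeff_C_mul]
  simp only [h1, add_smul]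
  rw [Finset.sum_add_distrib]
  have h2 : ∑ k ∈ Finset.range (d + 1 + 1), (α * (X * P).coeff k) • (A ^ k * B ^ (d + 1 - k)) =
      (α • A) * ∑ k ∈ Finset.range (d + 1), P.coeff k • (A ^ k * B ^ (d - k)) := by
    rw [Finset.sum_range_succ', Finset.mul_sum]
    have h3 : (X * P).coeff 0 = 0 := by simp
    rw [h3, mul_zero, zero_smul, add_zero]
    refine Finset.sum_congr rfl fun k _ => ?_
    rw [coeff_X_mul]
    have h4 : d + 1 - (k + 1) = d - k := by omega
    rw [h4, mul_smul, pow_succ]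
    simp only [Algebra.smul_def]
    ring
  have h5 : ∑ k ∈ Finset.range (d + 1 + 1), (β * P.coeff k) • (A ^ k * B ^ (d + 1 - k)) =
      (β • B) * ∑ k ∈ Finset.range (d + 1), P.coeff k • (A ^ k * B ^ (d - k)) := by
    rw [Finset.sum_range_succ, Finset.mul_sum]
    have h6 : P.coeff (d + 1) = 0 := coeff_eq_zero_of_natDegree_lt (by omega)
    rw [h6, mul_zero, zero_smul, add_zero]
    refine Finset.sum_congr rfl fun k hk => ?_
    have h7 := Finset.mem_range.1 hk
    have h8 : d + 1 - k = d - k + 1 := by omega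
    rw [h8, mul_smul, pow_succ]
    simp only [Algebra.smul_def]
    ring
  rw [h2, h5, add_mul]

theorem natDegree_lin (α β γ δ : L) (a b : ℕ) :
    ((C α * X + C β) ^ a * (C γ * X + C δ) ^ b).natDegree ≤ a + b := by
  refine natDegree_mul_le.trans ?_
  have h1 : ∀ α β : L, (C α * X + C β).natDegree ≤ 1 := fun α β => natDegree_linear_le
  have h2 := natDegree_pow_le_of_le a (h1 α β)
  have h3 := natDegree_pow_le_of_le b (h1 γ δ)
  omega

theorem hom_lin {R : Type*} [CommRing R] [Algebra L R] (A B : R) (α β γ δ : L) (a b : ℕ) :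
    ∑ k ∈ Finset.range (a + b + 1), ((C α * X + C β) ^ a * (C γ * X + C δ) ^ b).coeff k •
      (A ^ k * B ^ (a + b - k)) = (α • A + β • B) ^ a * (γ • A + δ • B) ^ b := by
  induction a with
  | zero =>
    induction b with
    | zero => simp
    | succ b ih =>
      have h1 := hom_mul A B γ δ ((C α * X + C β) ^ 0 * (C γ * X + C δ) ^ b)
        (natDegree_lin α β γ δ 0 b)
      rw [ih] at h1
      have h2 : (C γ * X + C δ) * ((C α * X + C β) ^ 0 * (C γ * X + C δ) ^ b) =
          (C α * X + C β) ^ 0 * (C γ * X + C δ) ^ (b + 1) := by ring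
      rw [h2] at h1
      have h3 : 0 + (b + 1) = 0 + b + 1 := by omega
      rw [h3, h1]
      ring
  | succ a ih =>
    have h1 := hom_mul A B α β ((C α * X + C β) ^ a * (C γ * X + C δ) ^ b)
      (natDegree_lin α β γ δ a b)
    rw [ih] at h1
    have h2 : (C α * X + C β) * ((C α * X + C β) ^ a * (C γ * X + C δ) ^ b) =
        (C α * X + C β) ^ (a + 1) * (C γ * X + C δ) ^ b := by ring
    rw [h2] at h1
    have h3 : a + 1 + b = a + b + 1 := by omega
    rw [h3, h1]
    ring

/-- expansion of the forms -/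
theorem symM_id {R : Type*} [CommRing R] [Algebra L R] (A B : R) (d : ℕ) (α β γ δ : L)
    (a : Fin (d + 1)) :
    (α • A + β • B) ^ (a : ℕ) * (γ • A + δ • B) ^ (d - (a : ℕ)) =
      ∑ a' : Fin (d + 1), symM d α β γ δ a' a • (A ^ (a' : ℕ) * B ^ (d - (a' : ℕ))) := by
  have h1 := hom_lin A B α β γ δ (a : ℕ) (d - (a : ℕ))
  have h2 : (a : ℕ) + (d - (a : ℕ)) = d := by
    have := a.2
    omega
  rw [h2] at h1
  rw [← h1]
  exact (Fin.sum_univ_eq_sum_range
    (fun k => ((C α * X + C β) ^ (a : ℕ) * (C γ * X + C δ) ^ (d - (a : ℕ))).coeff k •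
      (A ^ k * B ^ (d - k))) (d + 1)).symm

section le

variable {Γ : Type*} [LinearOrderedCommGroupWithZero Γ]

theorem cb_mul (v : Valuation L Γ) {P Q : L[X]} {r s : Γ} (hP : ∀ k, v (P.coeff k) ≤ r)
    (hQ : ∀ k, v (Q.coeff k) ≤ s) (k : ℕ) : v ((P * Q).coeff k) ≤ r * s := by
  rw [coeff_mul]
  refine v.map_sum_le fun i _ => ?_
  rw [map_mul]
  exact mul_le_mul' (hP _) (hQ _)

theorem cb_pow (v : Valuation L Γ) {P : L[X]} {r : Γ} (hP : ∀ k, v (P.coeff k) ≤ r) (m : ℕ) :
    ∀ k, v ((P ^ m).coeff k) ≤ r ^ m := by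
  induction m with
  | zero =>
    intro k
    rw [pow_zero, pow_zero, coeff_one]
    split_ifs
    · rw [map_one]
    · rw [map_zero]; exact zero_le
  | succ m ih =>
    intro k
    rw [pow_succ, pow_succ]
    exact cb_mul v ih hP k

/-- bound of the entries -/
theorem symM_le (v : Valuation L Γ) (d : ℕ) {α β γ δ : L} {b : Γ} (hα : v α ≤ b) (hβ : v β ≤ b)
    (hγ : v γ ≤ b) (hδ : v δ ≤ b) (a' a : Fin (d + 1)) : v (symM d α β γ δ a' a) ≤ b ^ d := by
  have h1 : ∀ α β : L, v α ≤ b → v β ≤ b → ∀ k, v ((C α * X + C β).coeff k) ≤ b := by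
    intro α β hα hβ k
    rw [coeff_add, coeff_C_mul, coeff_X, coeff_C]
    refine v.map_add_le ?_ ?_
    · split_ifs
      · rw [mul_one]; exact hα
      · rw [mul_zero, map_zero]; exact zero_le
    · split_ifs
      · exact hβ
      · rw [map_zero]; exact zero_le
  have h2 := cb_mul v (cb_pow v (h1 α β hα hβ) a) (cb_pow v (h1 γ δ hγ hδ) (d - a)) a'
  have h3 : (a : ℕ) + (d - a) = d := by
    have := a.2
    omega
  rw [← pow_add, h3] at h2
  exact h2

end le

end Pool.Agent.Lines
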