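import Pool.Agent.Lib.MP_c7af3c_ag.LINES.Iface
import Pool.Agent.Lib.MP_c7af3c_ag.SHARP.H54.NoLines
import Pool.Agent.Lib.MP_c7af3c_ag.SHARP.H26.Pair

/-!
# MP_c7af3c_ag, project LINES: module LVARX
-/

set_option autoImplicit false
set_option linter.unusedSectionVars false

namespace Pool.Agent.Lines.H54

open MvPolynomial Pool.Agent.Gen Pool.Agent.Sharp Pool.Agent.Sharp.H54

variable {L : Type} [Field L] [CharZero L] {n c : ℕ} {d : Fin c → ℕ} (D : DSys L n c d)
  {x y : Fin (n + 1) → L}

/-- pairs of vectors as functions -/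
noncomputable def toP : (Fin 2 × Fin (n + 1) → L) →ₗ[L]
    ((Fin (n + 1) → L) × (Fin (n + 1) → L)) where
  toFun u := (fun p => u (0, p), fun p => u (1, p))
  map_add' _ _ := rfl
  map_smul' _ _ := rfl

theorem toP_pr (u v : Fin (n + 1) → L) : toP (pr u v) = (u, v) := rfl

/-- `Phi` of a sum over the components -/
theorem Phi_VV (h : OnLine x y D.F) (G : Fin c → MvPolynomial (Fin (n + 1)) L)
    (hG : Hom d G) : Phi D x y (toP (VV D x y G)) = fun m => - lineP (G m) x y := by
  have h1 : toP (VV D x y G) = ∑ m, (D.V x m (G m), D.V y m (G m)) := by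
    unfold VV
    rw [toP_pr, VT_apply, VT_apply, Prod.mk.injEq]
    refine ⟨?_, ?_⟩
    · rw [Prod.fst_sum]
    · rw [Prod.snd_sum]
  rw [h1, map_sum]
  funext m'
  rw [Finset.sum_apply, Finset.sum_eq_single m']
  · rw [Phi_V D x y h m' (G m') (hG m')]
    exact if_pos rfl
  · intro m _ hm
    rw [Phi_V D x y h m (G m) (hG m)]
    exact if_neg hm
  · intro hm
    exact absurd (Finset.mem_univ _) hm

/-- the columns of the line -/
theorem Phi_x (h : OnLine x y D.F) : Phi D x y (y, 0) = 0 ∧ Phi D x y (x, 0) = 0 ∧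
    ∀ u : Fin (n + 1) → L, Phi D x y (u, 0) = 0 → Phi D x y (0, u) = 0 := by
  have ky : Phi D x y (y, 0) = 0 := by
    funext m
    rw [Phi_apply]
    have h1 := lineP_derivative (D.F m) x y
    rw [h m, Polynomial.derivative_zero] at h1
    simp only [Pi.zero_apply, map_zero, mul_zero, add_zero]
    exact h1.symm
  refine ⟨ky, ?_, ?_⟩
  · funext m
    have h1 := lineP_euler (D.hom m) x y
    rw [h m, smul_zero] at h1
    have h2 := congrFun ky m
    rw [Phi_apply] at h2 ⊢
    simp only [Pi.zero_apply, map_zero, mul_zero, add_zero] at h2 ⊢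
    have h3 : ∑ p, lineP (pderiv p (D.F m)) x y *
        (Polynomial.C (x p) + Polynomial.X * Polynomial.C (y p)) =
        ∑ p, lineP (pderiv p (D.F m)) x y * Polynomial.C (x p) +
        Polynomial.X * ∑ p, lineP (pderiv p (D.F m)) x y * Polynomial.C (y p) := by
      rw [Finset.mul_sum, ← Finset.sum_add_distrib]
      exact Finset.sum_congr rfl fun p _ => by ring
    rw [h3, h2, mul_zero, add_zero] at h1
    exact h1
  · intro u hu
    funext m
    have h2 := congrFun hu m
    rw [Phi_apply] at h2 ⊢
    simp only [Pi.zero_apply, map_zero, mul_zero, add_zero, zero_add] at h2 ⊢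
    have h3 : ∑ p, lineP (pderiv p (D.F m)) x y * (Polynomial.X * Polynomial.C (u p)) =
        Polynomial.X * ∑ p, lineP (pderiv p (D.F m)) x y * Polynomial.C (u p) := by
      rw [Finset.mul_sum]
      exact Finset.sum_congr rfl fun p _ => by ring
    rw [h3, h2, mul_zero]

/-- the variation space lies in the kernel -/
theorem SL_le (h : OnLine x y D.F) :
    SL D x y ≤ LinearMap.ker ((Phi D x y).comp toP) := by
  obtain ⟨ky, kx, kT⟩ := Phi_x D h
  unfold SL
  rw [Submodule.span_le]
  rintro u ((⟨⟨a, b⟩, rfl⟩ | ⟨p, q, rfl⟩) | ⟨G, hG, hGl, rfl⟩)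
  · show Phi D x y (toP (PP x y (a, b))) = 0
    have h1 : ∀ z : Fin (n + 1) → L, Phi D x y (z, 0) = 0 →
        Phi D x y (toP (fun q : Fin 2 × Fin (n + 1) => if q.1 = a then z q.2 else 0)) = 0 := by
      intro z hz
      have h2 := kT z hz
      fin_cases a
      · exact hz
      · exact h2
    fin_cases b
    · exact h1 x kx
    · exact h1 y ky
  · show Phi D x y (toP (WW D x y p q)) = 0
    have h1 : WW D x y p q = pr (x q • Pi.single p 1) (y q • Pi.single p 1) +
        VV D x y (fun m => X q * pderiv p (D.F m)) := by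
      unfold WW VV WT pr
      funext r
      simp only [Pi.add_apply]
      split_ifs <;> rfl
    rw [h1, map_add, map_add, Phi_VV D h _ (fun m => hom_XF' D m p q), toP_pr]
    funext m
    rw [Pi.add_apply, Phi_apply, Finset.sum_eq_single p]
    · rw [lineP_mul, lineP_X]
      simp only [Pi.smul_apply, Pi.single_eq_same, smul_eq_mul, mul_one, Pi.zero_apply]
      ring
    · intro r _ hr
      simp [hr]
    · intro hr
      exact absurd (Finset.mem_univ _) hr
  · show Phi D x y (toP (VV D x y G)) = 0
    rw [Phi_VV D h G hG]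
    funext m
    rw [hGl m, neg_zero]
    rfl

/-- the range -/
theorem range_ge (hxy : LinearIndependent L ![x, y]) (h : OnLine x y D.F) :
    c + ∑ m, d m ≤ Module.finrank L (LinearMap.range ((Phi D x y).comp toP)) := by
  classical
  choose G hG using fun q : (Σ m : Fin c, Fin (d m + 1)) =>
    exists_form hxy (d q.1) q.2 (Nat.lt_succ_iff.1 q.2.2)
  let b : (Σ m : Fin c, Fin (d m + 1)) → (Fin c → Polynomial L) := fun q =>
    fun m' => if q.1 = m' then - (Polynomial.X ^ (q.2 : ℕ) : Polynomial L) else 0
  have hb : ∀ q, b q ∈ LinearMap.range ((Phi D x y).comp toP) := by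
    intro q
    refine ⟨pr (D.V x q.1 (G q)) (D.V y q.1 (G q)), ?_⟩
    rw [LinearMap.comp_apply, toP_pr, Phi_V D x y h q.1 (G q) (hG q).1, (hG q).2]
  have hli : LinearIndependent L b := by
    rw [Fintype.linearIndependent_iff]
    rintro g hg ⟨m, k⟩
    have h1 := congrFun hg m
    rw [Finset.sum_apply] at h1
    have h2 := congrArg (fun P => Polynomial.coeff P (k : ℕ)) h1
    simp only [Pi.smul_apply, Polynomial.finsetSum_coeff, Polynomial.coeff_smul,
      Pi.zero_apply, Polynomial.coeff_zero] at h2
    rw [Finset.sum_eq_single ⟨m, k⟩] at h2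
    · simpa [b] using h2
    · rintro ⟨m', k'⟩ _ hne
      simp only [b]
      by_cases hm : m' = m
      · subst hm
        have hk : (k' : ℕ) ≠ k := by
          intro h
          apply hne
          have : k' = k := Fin.ext h
          rw [this]
        simp [Polynomial.coeff_X_pow, Ne.symm hk]
      · simp [hm]
    · intro h
      exact absurd (Finset.mem_univ _) h
  have hli' : LinearIndependent L (fun i =>
      (⟨b i, hb i⟩ : LinearMap.range ((Phi D x y).comp toP))) :=
    LinearIndependent.of_comp (LinearMap.range ((Phi D x y).comp toP)).subtype hli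
  have := hli'.fintype_card_le_finrank
  rw [Fintype.card_sigma] at this
  simp only [Fintype.card_fin, Finset.sum_add_distrib, Finset.sum_const, Finset.card_univ,
    smul_eq_mul, mul_one] at this
  omega

/-- Module LVARX. -/
theorem lvarx : LvarxStatement := by
  intro L _ _ n c d D x y hxy h
  have h1 := range_ge D hxy h
  have h2 := LinearMap.finrank_range_add_finrank_ker ((Phi D x y).comp (toP (L := L) (n := n)))
  have h3 : Module.finrank L (Fin 2 × Fin (n + 1) → L) = 2 * (n + 1) := by
    rw [Module.finrank_fintype_fun_eq_card, Fintype.card_prod, Fintype.card_fin, Fintype.card_fin]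
  have h4 := Submodule.finrank_mono (SL_le D h)
  rw [h3] at h2
  omega

end Pool.Agent.Lines.H54
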