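import Mathlib

/-!
# MP_c7af3c_ag, project LINES: determinant of the symmetric powers of a 2 x 2 matrix (SYMDET)
-/

set_option autoImplicit false

namespace Pool.Agent.Lines.H54

open Polynomial

variable {R : Type*} [CommRing R]

/-- the form `(a + b T) ^ (d - i) (c + e T) ^ i` -/
noncomputable def symP (a b c e : R) (d i : ℕ) : R[X] :=
  (C a + X * C b) ^ (d - i) * (C c + X * C e) ^ i

/-- the matrix of the coefficients -/
noncomputable def symM (a b c e : R) (d : ℕ) : Matrix (Fin (d + 1)) (Fin (d + 1)) R :=
  Matrix.of fun i k => (symP a b c e d i).coeff k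

theorem natDegree_symP (a b c e : R) {d i : ℕ} (hi : i ≤ d) :
    (symP a b c e d i).natDegree ≤ d := by
  unfold symP
  have h1 : ∀ a b : R, (C a + X * C b).natDegree ≤ 1 := by
    intro a b
    refine (natDegree_add_le _ _).trans (max_le ?_ ?_)
    · rw [natDegree_C]; exact Nat.zero_le _
    · refine natDegree_mul_le.trans ?_
      rw [natDegree_C, add_zero]
      exact natDegree_X_le
  refine natDegree_mul_le.trans ?_
  have h2 := natDegree_pow_le_of_le (d - i) (h1 a b)
  have h3 := natDegree_pow_le_of_le i (h1 c e)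
  omega

theorem eval_symP (a b c e t : R) (d i : ℕ) :
    (symP a b c e d i).eval t = (a + b * t) ^ (d - i) * (c + e * t) ^ i := by
  unfold symP
  rw [eval_mul, eval_pow, eval_pow, eval_add, eval_add, eval_mul, eval_mul]
  simp only [eval_C, eval_X]
  ring

theorem sum_card_Ioi (d : ℕ) : ∑ i : Fin (d + 1), (Finset.Ioi i).card = d * (d + 1) / 2 := by
  have h1 : ∀ i : Fin (d + 1), (Finset.Ioi i).card = d - i := by
    intro i
    rw [Fin.card_Ioi]
    omega
  rw [Finset.sum_congr rfl fun i _ => h1 i, Fin.sum_univ_eq_sum_range (fun i => d - i) (d + 1)]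
  have h2 := Finset.sum_range_reflect (fun i => i) (d + 1)
  have h3 : ∑ i ∈ Finset.range (d + 1), (d - i) = ∑ i ∈ Finset.range (d + 1), i := by
    rw [← h2]
    refine Finset.sum_congr rfl fun i _ => ?_
    omega
  rw [h3, Finset.sum_range_id]
  congr 1
  rw [Nat.add_sub_cancel]
  ring

/-- over a domain of characteristic zero -/
theorem det_symM_domain [IsDomain R] [CharZero R] (a b c e : R) (d : ℕ) :
    (symM a b c e d).det = (a * e - b * c) ^ (d * (d + 1) / 2) := by
  set t : Fin (d + 1) → R := fun j => ((j : ℕ) : R) with ht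
  have htinj : Function.Injective t := by
    intro i j hij
    simp only [ht] at hij
    exact Fin.ext (Nat.cast_injective hij)
  have hV : (Matrix.vandermonde t).det ≠ 0 := Matrix.det_vandermonde_ne_zero_iff.2 htinj
  have h1 : Matrix.vandermonde t * (symM a b c e d).transpose =
      Matrix.projVandermonde (fun j => c + e * t j) (fun j => a + b * t j) := by
    ext j i
    rw [Matrix.mul_apply, Matrix.projVandermonde_apply]
    have h2 := eval_symP a b c e (t j) d i
    rw [Polynomial.eval_eq_sum_range' (Nat.lt_succ_of_le (natDegree_symP a b c e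
      (Nat.le_of_lt_succ i.2))), ← Fin.sum_univ_eq_sum_range
      (fun k => (symP a b c e d i).coeff k * t j ^ k) (d + 1)] at h2
    have h3 : (i.rev : ℕ) = d - i := by
      rw [Fin.val_rev]
      omega
    rw [h3, mul_comm ((c + e * t j) ^ (i : ℕ)), ← h2]
    refine Finset.sum_congr rfl fun k _ => ?_
    rw [Matrix.vandermonde_apply, Matrix.transpose_apply]
    show t j ^ (k : ℕ) * (symP a b c e d i).coeff k = _
    ring
  have h4 := congrArg Matrix.det h1
  rw [Matrix.det_mul, Matrix.det_transpose, Matrix.det_projVandermonde] at h4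
  have h5 : ∏ i : Fin (d + 1), ∏ j ∈ Finset.Ioi i,
      ((c + e * t j) * (a + b * t i) - (c + e * t i) * (a + b * t j)) =
      (Matrix.vandermonde t).det * (a * e - b * c) ^ (d * (d + 1) / 2) := by
    rw [Matrix.det_vandermonde, ← sum_card_Ioi, ← Finset.prod_pow_eq_pow_sum,
      ← Finset.prod_mul_distrib]
    refine Finset.prod_congr rfl fun i _ => ?_
    rw [← Finset.prod_const, ← Finset.prod_mul_distrib]
    refine Finset.prod_congr rfl fun j _ => ?_
    ring
  rw [h5] at h4
  exact mul_left_cancel₀ hV h4

theorem map_symM {S : Type*} [CommRing S] (f : R →+* S) (a b c e : R) (d : ℕ) :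
    f.mapMatrix (symM a b c e d) = symM (f a) (f b) (f c) (f e) d := by
  ext i k
  simp only [RingHom.mapMatrix_apply, Matrix.map_apply, symM, Matrix.of_apply]
  rw [← coeff_map]
  congr 1
  unfold symP
  rw [Polynomial.map_mul, Polynomial.map_pow, Polynomial.map_pow, Polynomial.map_add,
    Polynomial.map_add, Polynomial.map_mul, Polynomial.map_mul, Polynomial.map_C,
    Polynomial.map_C, Polynomial.map_C, Polynomial.map_C, Polynomial.map_X]

/-- Module SYMDET. -/
theorem det_symM (a b c e : R) (d : ℕ) :
    (symM a b c e d).det = (a * e - b * c) ^ (d * (d + 1) / 2) := by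
  have h1 := det_symM_domain (R := MvPolynomial (Fin 4) ℤ) (MvPolynomial.X 0)
    (MvPolynomial.X 1) (MvPolynomial.X 2) (MvPolynomial.X 3) d
  have h2 := congrArg (MvPolynomial.aeval (R := ℤ) ![a, b, c, e]) h1
  have h3 : (MvPolynomial.aeval (R := ℤ) ![a, b, c, e]) (symM (R := MvPolynomial (Fin 4) ℤ)
      (MvPolynomial.X 0) (MvPolynomial.X 1) (MvPolynomial.X 2) (MvPolynomial.X 3) d).det =
      (symM a b c e d).det := by
    have h4 := RingHom.map_det (MvPolynomial.aeval (R := ℤ) ![a, b, c, e]).toRingHom
      (symM (R := MvPolynomial (Fin 4) ℤ)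
      (MvPolynomial.X 0) (MvPolynomial.X 1) (MvPolynomial.X 2) (MvPolynomial.X 3) d)
    rw [map_symM] at h4
    simpa using h4
  rw [h3] at h2
  rw [h2]
  simp

end Pool.Agent.Lines.H54
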